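import Mathlib

set_option autoImplicit false

/-!
A counterexample on `2^n + 1` vertices: dyadic arcs, back arcs and one long back arc.
-/

namespace Pool.Agent.Helper39CD

/-- length of the `i`-th cycle of the transition system, minus one -/
def Lp (n i : ℕ) : ℕ := 2 ^ (n - i) + (if i = n - 1 then 0 else 2 ^ n - 1)

/-- tail of the arc `(i, x)` -/
def tl (n i x : ℕ) : ℕ := if x < 2 ^ (n - i) then x * 2 ^ i else 2 ^ n - (x - 2 ^ (n - i))

/-- head of the arc `(i, x)` -/
def hd (n i x : ℕ) : ℕ := if x = Lp n i then 0 else tl n i (x + 1)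

theorem pow_mul_pow_sub' (n i : ℕ) (hi : i ≤ n) : 2 ^ (n - i) * 2 ^ i = 2 ^ n := by
  rw [← pow_add, Nat.sub_add_cancel hi]

theorem tl_le (n i x : ℕ) (hi : i ≤ n) : tl n i x ≤ 2 ^ n := by
  unfold tl
  split_ifs with h
  · calc x * 2 ^ i ≤ 2 ^ (n - i) * 2 ^ i := Nat.mul_le_mul_right _ h.le
      _ = 2 ^ n := pow_mul_pow_sub' n i hi
  · exact Nat.sub_le _ _

/-- forward arcs -/
theorem fwd (n i x : ℕ) (hi : i < n) (hx : x < 2 ^ (n - i)) :
    tl n i x = x * 2 ^ i ∧ hd n i x = (x + 1) * 2 ^ i := by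
  have h1 : tl n i x = x * 2 ^ i := by simp [tl, hx]
  refine ⟨h1, ?_⟩
  have h2 : x ≠ Lp n i := by
    unfold Lp; omega
  unfold hd
  rw [if_neg h2]
  unfold tl
  by_cases h3 : x + 1 < 2 ^ (n - i)
  · rw [if_pos h3]
  · rw [if_neg h3]
    have h4 : x + 1 = 2 ^ (n - i) := by omega
    rw [h4, pow_mul_pow_sub' n i hi.le]
    simp

/-- back arcs -/
theorem bck (n i x : ℕ) (hi : i < n) (hx : 2 ^ (n - i) ≤ x) (hx' : x ≤ Lp n i) :
    hd n i x < tl n i x := by
  have hp : 0 < 2 ^ n := Nat.pos_of_ne_zero (by positivity)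
  have h1 : tl n i x = 2 ^ n - (x - 2 ^ (n - i)) := by
    unfold tl; rw [if_neg (by omega)]
  unfold hd
  split_ifs with h2
  · rw [h1]
    unfold Lp at h2
    split_ifs at h2 with h3 <;> omega
  · rw [h1]
    unfold tl
    rw [if_neg (by omega)]
    unfold Lp at hx' h2
    split_ifs at hx' h2 with h3 <;> omega

/-- the back arc `j + 1 → j` number `i` -/
theorem bck_arc (n i j : ℕ) (hi : i < n - 1) (hj : j < 2 ^ n) :
    2 ^ (n - i) + (2 ^ n - (j + 1)) ≤ Lp n i ∧
    tl n i (2 ^ (n - i) + (2 ^ n - (j + 1))) = j + 1 ∧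
    hd n i (2 ^ (n - i) + (2 ^ n - (j + 1))) = j := by
  have h0 : Lp n i = 2 ^ (n - i) + (2 ^ n - 1) := by
    unfold Lp; rw [if_neg (by omega)]
  refine ⟨by omega, ?_, ?_⟩
  · unfold tl
    rw [if_neg (by omega)]
    omega
  · unfold hd
    split_ifs with h2
    · omega
    · unfold tl
      rw [if_neg (by omega)]
      omega

/-- the long arc -/
theorem eps_arc (n : ℕ) (hn : 2 ≤ n) :
    Lp n (n - 1) = 2 ∧ tl n (n - 1) 2 = 2 ^ n ∧ hd n (n - 1) 2 = 0 := by
  have h1 : n - (n - 1) = 1 := by omega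
  have h0 : Lp n (n - 1) = 2 := by
    unfold Lp; rw [if_pos rfl, h1]; norm_num
  refine ⟨h0, ?_, ?_⟩
  · unfold tl; rw [h1]; simp
  · unfold hd; rw [h0]; simp

theorem hd_ne_tl (n i x : ℕ) (hi : i < n) (hx : x ≤ Lp n i) : hd n i x ≠ tl n i x := by
  by_cases h : x < 2 ^ (n - i)
  · obtain ⟨h1, h2⟩ := fwd n i x hi h
    rw [h1, h2]
    have : 0 < 2 ^ i := Nat.pos_of_ne_zero (by positivity)
    intro h3
    have := Nat.eq_of_mul_eq_mul_right this h3
    omega
  · exact (bck n i x hi (by omega) hx).ne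

/-- an arc leaving `[0, q]` is the dyadic arc containing `q` -/
theorem leave (n i x q : ℕ) (hi : i < n) (hx : x ≤ Lp n i) (h1 : tl n i x ≤ q)
    (h2 : q < hd n i x) : x = q / 2 ^ i := by
  by_cases h : x < 2 ^ (n - i)
  · obtain ⟨h3, h4⟩ := fwd n i x hi h
    rw [h3] at h1
    rw [h4] at h2
    have hp : 0 < 2 ^ i := Nat.pos_of_ne_zero (by positivity)
    symm
    exact Nat.div_eq_of_lt_le h1 h2
  · have := bck n i x hi (by omega) hx
    omega

/-- the arc type -/
abbrev E (n : ℕ) : Type := Σ i : Fin n, Fin (Lp n i + 1)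

/-- vertices -/
abbrev V (n : ℕ) : Type := Fin (2 ^ n + 1)

def tail (n : ℕ) (e : E n) : V n :=
  ⟨tl n e.1 e.2, Nat.lt_succ_of_le (tl_le n e.1 e.2 e.1.2.le)⟩

def sig (n : ℕ) : Equiv.Perm (E n) := Equiv.sigmaCongrRight (fun i => finRotate (Lp n i + 1))

def head (n : ℕ) (e : E n) : V n := tail n (sig n e)

theorem tl_zero (n i : ℕ) : tl n i 0 = 0 := by
  unfold tl
  rw [if_pos (Nat.pos_of_ne_zero (by positivity))]
  simp

theorem head_val (n : ℕ) (e : E n) : ((head n e : V n) : ℕ) = hd n e.1 e.2 := by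
  obtain ⟨i, x⟩ := e
  show tl n i (finRotate (Lp n i + 1) x : ℕ) = hd n i x
  rw [coe_finRotate]
  unfold hd
  by_cases h : x = Fin.last (Lp n i)
  · rw [if_pos h, h]
    simp [tl_zero]
  · rw [if_neg h, if_neg]
    intro h2
    exact h (Fin.ext h2)

theorem tail_val (n : ℕ) (e : E n) : ((tail n e : V n) : ℕ) = tl n e.1 e.2 := rfl

/-- the arc with given indices -/
def arc (n i x : ℕ) (hi : i < n) (hx : x ≤ Lp n i) : E n := ⟨⟨i, hi⟩, ⟨x, Nat.lt_succ_of_le hx⟩⟩

theorem arc_tail (n i x : ℕ) (hi : i < n) (hx : x ≤ Lp n i) :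
    ((tail n (arc n i x hi hx) : V n) : ℕ) = tl n i x := rfl

theorem arc_head (n i x : ℕ) (hi : i < n) (hx : x ≤ Lp n i) :
    ((head n (arc n i x hi hx) : V n) : ℕ) = hd n i x := head_val n _

theorem eq_arc (n : ℕ) (e : E n) :
    e = arc n e.1 e.2 e.1.2 (Nat.le_of_lt_succ e.2.2) := rfl

theorem fwd_le (n i x : ℕ) (hx : x < 2 ^ (n - i)) : x ≤ Lp n i := by
  unfold Lp; omega

theorem sig_arc (n i x : ℕ) (hi : i < n) (hx : x + 1 ≤ Lp n i) :
    sig n (arc n i x hi (Nat.le_of_succ_le hx)) = arc n i (x + 1) hi hx := by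
  show (⟨⟨i, hi⟩, finRotate (Lp n i + 1) ⟨x, _⟩⟩ : E n) = ⟨⟨i, hi⟩, ⟨x + 1, _⟩⟩
  congr 1
  apply Fin.ext
  rw [coe_finRotate]
  rw [if_neg]
  intro h
  have := congrArg Fin.val h
  simp at this
  omega

/-- the cut condition, in the form of an injective family -/
theorem cut_family (n : ℕ) (hn : 2 ≤ n) (S : Finset (V n)) (hS : S.Nonempty)
    (hS' : S ≠ Finset.univ) :
    ∃ f : Fin n → E n, Function.Injective f ∧ ∀ i, tail n (f i) ∈ S ∧ head n (f i) ∉ S := by
  classical
  -- membership as a predicate on naturals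
  have key : ∀ (P : ℕ → Prop), (∀ v : V n, P v ↔ v ∈ S) →
      ∃ f : Fin n → E n, Function.Injective f ∧
        ∀ i, P ((tail n (f i) : V n) : ℕ) ∧ ¬ P ((head n (f i) : V n) : ℕ) := by
    intro P hP
    by_cases hA : ∃ j, j < 2 ^ n ∧ ¬ P j ∧ P (j + 1)
    · obtain ⟨j, hj, hj0, hj1⟩ := hA
      -- the extra arc
      have hextra : ∃ e : E n, P ((tail n e : V n) : ℕ) ∧ ¬ P ((head n e : V n) : ℕ) ∧
          ((e.1 : ℕ) = n - 1 ∨ ((e.1 : ℕ) = 0 ∧ (e.2 : ℕ) < 2 ^ n)) := by
        by_cases hB : ∃ q, q < 2 ^ n ∧ P q ∧ ¬ P (q + 1)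
        · obtain ⟨q, hq, hq0, hq1⟩ := hB
          have h0 : 0 < n := by omega
          have hq' : q < 2 ^ (n - 0) := by simpa using hq
          obtain ⟨h1, h2⟩ := fwd n 0 q h0 hq'
          refine ⟨arc n 0 q h0 (fwd_le n 0 q hq'), ?_, ?_, Or.inr ⟨rfl, hq⟩⟩
          · rw [arc_tail, h1]; simpa using hq0
          · rw [arc_head, h2]; simpa using hq1
        · obtain ⟨h1, h2, h3⟩ := eps_arc n hn
          refine ⟨arc n (n - 1) 2 (by omega) h1.ge, ?_, ?_, Or.inl rfl⟩
          · rw [arc_tail, h2]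
            have : ∀ d, j + 1 + d ≤ 2 ^ n → P (j + 1 + d) := by
              intro d
              induction d with
              | zero => intro _; exact hj1
              | succ d ih =>
                intro hd
                by_contra hc
                exact hB ⟨j + 1 + d, by omega, ih (by omega), hc⟩
            have h5 := this (2 ^ n - (j + 1)) (by omega)
            have h6 : j + 1 + (2 ^ n - (j + 1)) = 2 ^ n := by omega
            rwa [h6] at h5
          · rw [arc_head, h3]
            intro h0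
            have : ∀ d, d ≤ j → P d := by
              intro d
              induction d with
              | zero => intro _; exact h0
              | succ d ih =>
                intro hd
                by_contra hc
                exact hB ⟨d, by omega, ih (by omega), hc⟩
            exact hj0 (this j le_rfl)
      obtain ⟨e, he1, he2, he3⟩ := hextra
      refine ⟨fun i => if h : (i : ℕ) < n - 1 then
        arc n i (2 ^ (n - i) + (2 ^ n - (j + 1))) i.2 (bck_arc n i j h hj).1 else e, ?_, ?_⟩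
      · intro a b hab
        by_cases ha : (a : ℕ) < n - 1 <;> by_cases hb : (b : ℕ) < n - 1
        · simp only [dif_pos ha, dif_pos hb] at hab
          have := congrArg (fun z : E n => (z.1 : ℕ)) hab
          exact Fin.ext this
        · simp only [dif_pos ha, dif_neg hb] at hab
          exfalso
          rw [← hab] at he3
          rcases he3 with h | ⟨h, h'⟩
          · have : (a : ℕ) = n - 1 := h
            omega
          · have h5 : (a : ℕ) = 0 := h
            have h6 : 2 ^ (n - (a : ℕ)) + (2 ^ n - (j + 1)) < 2 ^ n := h'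
            rw [h5, Nat.sub_zero] at h6
            omega
        · simp only [dif_neg ha, dif_pos hb] at hab
          exfalso
          rw [hab] at he3
          rcases he3 with h | ⟨h, h'⟩
          · have : (b : ℕ) = n - 1 := h
            omega
          · have h5 : (b : ℕ) = 0 := h
            have h6 : 2 ^ (n - (b : ℕ)) + (2 ^ n - (j + 1)) < 2 ^ n := h'
            rw [h5, Nat.sub_zero] at h6
            omega
        · apply Fin.ext
          have := a.2
          have := b.2
          omega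
      · intro i
        by_cases h : (i : ℕ) < n - 1
        · simp only [dif_pos h]
          obtain ⟨_, h2, h3⟩ := bck_arc n i j h hj
          rw [arc_tail, arc_head, h2, h3]
          exact ⟨hj1, hj0⟩
        · simp only [dif_neg h]
          exact ⟨he1, he2⟩
    · -- initial segment
      have hdown : ∀ j, j < 2 ^ n → P (j + 1) → P j := by
        intro j hj h
        by_contra hc
        exact hA ⟨j, hj, hc, h⟩
      have hzero : P 0 := by
        obtain ⟨v, hv⟩ := hS
        have hv' : P (v : ℕ) := (hP v).2 hv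
        have : ∀ d, d ≤ (v : ℕ) → P ((v : ℕ) - d) := by
          intro d
          induction d with
          | zero => intro _; exact hv'
          | succ d ih =>
            intro hd
            have h1 := ih (by omega)
            have h2 := v.2
            apply hdown _ (by omega)
            have h3 : (v : ℕ) - (d + 1) + 1 = (v : ℕ) - d := by omega
            rwa [h3]
        have h := this v le_rfl
        simpa using h
      have hex : ∃ q, q < 2 ^ n ∧ P q ∧ ¬ P (q + 1) := by
        by_contra hc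
        apply hS'
        apply Finset.eq_univ_of_forall
        intro v
        rw [← hP v]
        have : ∀ d, d ≤ 2 ^ n → P d := by
          intro d
          induction d with
          | zero => intro _; exact hzero
          | succ d ih =>
            intro hd
            by_contra hc'
            exact hc ⟨d, by omega, ih (by omega), hc'⟩
        exact this v (Nat.le_of_lt_succ v.2)
      obtain ⟨q, hq, hq0, hq1⟩ := hex
      have hle : ∀ d, d ≤ q → P d := by
        intro d hd
        have : ∀ c, c ≤ q → P (q - c) := by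
          intro c
          induction c with
          | zero => intro _; exact hq0
          | succ c ih =>
            intro hc
            apply hdown _ (by omega)
            have h3 : q - (c + 1) + 1 = q - c := by omega
            rw [h3]
            exact ih (by omega)
        have h := this (q - d) (by omega)
        have h3 : q - (q - d) = d := by omega
        rwa [h3] at h
      have hgt : ∀ d, q < d → d ≤ 2 ^ n → ¬ P d := by
        intro d hd
        induction d with
        | zero => omega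
        | succ d ih =>
          intro h1 h2
          by_cases h3 : d = q
          · subst h3; exact hq1 h2
          · exact ih (by omega) (by omega) (hdown d (by omega) h2)
      have hlt : ∀ i : ℕ, i < n → q / 2 ^ i < 2 ^ (n - i) := by
        intro i hi
        rw [Nat.div_lt_iff_lt_mul (Nat.pos_of_ne_zero (by positivity)),
          pow_mul_pow_sub' n i hi.le]
        exact hq
      refine ⟨fun i => arc n i (q / 2 ^ (i : ℕ)) i.2 (fwd_le n i _ (hlt i i.2)), ?_, ?_⟩
      · intro a b hab
        have := congrArg (fun z : E n => (z.1 : ℕ)) hab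
        exact Fin.ext this
      · intro i
        obtain ⟨h1, h2⟩ := fwd n i (q / 2 ^ (i : ℕ)) i.2 (hlt i i.2)
        have hp : 0 < 2 ^ (i : ℕ) := Nat.pos_of_ne_zero (by positivity)
        rw [arc_tail, arc_head, h1, h2]
        constructor
        · exact hle _ (Nat.div_mul_le_self _ _)
        · apply hgt
          · exact (Nat.div_lt_iff_lt_mul hp).1 (Nat.lt_succ_self _)
          · calc (q / 2 ^ (i : ℕ) + 1) * 2 ^ (i : ℕ) ≤ 2 ^ (n - (i : ℕ)) * 2 ^ (i : ℕ) :=
                Nat.mul_le_mul_right _ (hlt i i.2)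
              _ = 2 ^ n := pow_mul_pow_sub' n i i.2.le
  obtain ⟨f, hf, h⟩ := key (fun v => ∃ h : v < 2 ^ n + 1, (⟨v, h⟩ : V n) ∈ S) (by
    intro v
    constructor
    · rintro ⟨_, h⟩; exact h
    · intro h; exact ⟨v.2, h⟩)
  refine ⟨f, hf, fun i => ?_⟩
  obtain ⟨⟨_, h1⟩, h2⟩ := h i
  refine ⟨h1, fun h3 => h2 ⟨(head n (f i)).2, h3⟩⟩

theorem cut_card (n : ℕ) (hn : 2 ≤ n) (S : Finset (V n)) (hS : S.Nonempty)
    (hS' : S ≠ Finset.univ) :
    n ≤ (Finset.univ.filter (fun e : E n => tail n e ∈ S ∧ head n e ∉ S)).card := by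
  classical
  obtain ⟨f, hf, h⟩ := cut_family n hn S hS hS'
  calc n = (Finset.univ.image f).card := by
        rw [Finset.card_image_of_injective _ hf]; simp
    _ ≤ _ := by
        apply Finset.card_le_card
        intro e he
        rw [Finset.mem_image] at he
        obtain ⟨i, _, rfl⟩ := he
        simp only [Finset.mem_filter, Finset.mem_univ, true_and]
        exact h i

/-- descent along the dyadic tree -/
theorem descent (n : ℕ) (C : E n → Prop)
    (hC : ∀ (i a : ℕ) (hi : i < n) (ha : 2 * a + 1 ≤ Lp n i),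
      2 * a + 1 < 2 ^ (n - i) →
      ¬ (C (arc n i (2 * a) hi (Nat.le_of_succ_le ha)) ∧ C (arc n i (2 * a + 1) hi ha))) :
    ∀ m, m ≤ n → ∃ a, a < 2 ^ m ∧ ∀ i (hi : i < n) (h : a / 2 ^ (i - (n - m)) ≤ Lp n i),
      n - m ≤ i → ¬ C (arc n i (a / 2 ^ (i - (n - m))) hi h) := by
  intro m
  induction m with
  | zero =>
    intro _
    refine ⟨0, by simp, ?_⟩
    intro i hi _ h
    omega
  | succ m ih =>
    intro hm
    obtain ⟨a, ha, hprev⟩ := ih (by omega)
    have hi' : n - (m + 1) < n := by omega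
    have hpow : n - (n - (m + 1)) = m + 1 := by omega
    have h2a : 2 * a + 1 < 2 ^ (n - (n - (m + 1))) := by
      rw [hpow, pow_succ]; omega
    have hle : 2 * a + 1 ≤ Lp n (n - (m + 1)) := fwd_le _ _ _ h2a
    have hnot := hC (n - (m + 1)) a hi' hle h2a
    have hstep : ∀ b, b / 2 = a → b < 2 ^ (m + 1) → (hb : b ≤ Lp n (n - (m + 1))) →
        ¬ C (arc n (n - (m + 1)) b hi' hb) →
        ∃ a', a' < 2 ^ (m + 1) ∧ ∀ i (hi : i < n)
          (h : a' / 2 ^ (i - (n - (m + 1))) ≤ Lp n i),
          n - (m + 1) ≤ i → ¬ C (arc n i (a' / 2 ^ (i - (n - (m + 1)))) hi h) := by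
      intro b hba hb hbL hbC
      refine ⟨b, hb, ?_⟩
      intro i hi h hge
      by_cases h1 : i = n - (m + 1)
      · subst h1
        have h2 : b / 2 ^ (n - (m + 1) - (n - (m + 1))) = b := by simp
        have h3 : arc n (n - (m + 1)) (b / 2 ^ (n - (m + 1) - (n - (m + 1)))) hi h =
            arc n (n - (m + 1)) b hi' hbL := by
          congr 1
        rw [h3]
        exact hbC
      · have h2 : i - (n - (m + 1)) = (i - (n - m)) + 1 := by omega
        have h3 : b / 2 ^ (i - (n - (m + 1))) = a / 2 ^ (i - (n - m)) := by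
          rw [h2, pow_succ, mul_comm, ← Nat.div_div_eq_div_mul, hba]
        have h4 : a / 2 ^ (i - (n - m)) ≤ Lp n i := by rw [← h3]; exact h
        have h5 : arc n i (b / 2 ^ (i - (n - (m + 1)))) hi h =
            arc n i (a / 2 ^ (i - (n - m))) hi h4 := by
          congr 1
        rw [h5]
        exact hprev i hi h4 (by omega)
    by_cases h0 : C (arc n (n - (m + 1)) (2 * a) hi' (Nat.le_of_succ_le hle))
    · have h1 : ¬ C (arc n (n - (m + 1)) (2 * a + 1) hi' hle) := fun h => hnot ⟨h0, h⟩
      exact hstep (2 * a + 1) (by omega) (by rw [pow_succ]; omega) hle h1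
    · exact hstep (2 * a) (by omega) (by rw [pow_succ]; omega) (Nat.le_of_succ_le hle) h0

/-- no compatible decomposition -/
theorem no_dec (n : ℕ) (hn : 2 ≤ n) (τ : Equiv.Perm (E n))
    (hτ : ∀ e, tail n (τ e) = head n e) : ∃ e, τ.SameCycle e (sig n e) := by
  by_contra hcon
  push Not at hcon
  obtain ⟨he1, he2, he3⟩ := eps_arc n hn
  set ε : E n := arc n (n - 1) 2 (by omega) he1.ge with hε
  obtain ⟨q, hq, hqC⟩ := descent n (fun e => τ.SameCycle ε e) (by
    intro i a hi ha _ hh
    have h1 := sig_arc n i (2 * a) hi ha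
    have h2 := hcon (arc n i (2 * a) hi (Nat.le_of_succ_le ha))
    rw [h1] at h2
    exact h2 (hh.1.symm.trans hh.2)) n le_rfl
  have hqC' : ∀ e : E n, τ.SameCycle ε e → ((tail n e : V n) : ℕ) ≤ q →
      ((head n e : V n) : ℕ) ≤ q := by
    intro e he h1
    by_contra h2
    push Not at h2
    have h3 : (e.2 : ℕ) ≤ Lp n e.1 := Nat.le_of_lt_succ e.2.2
    rw [head_val] at h2
    rw [tail_val] at h1
    have h4 := leave n e.1 e.2 q e.1.2 h3 h1 h2
    have h5 : q / 2 ^ ((e.1 : ℕ) - (n - n)) = (e.2 : ℕ) := by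
      rw [h4]; simp
    have h6 : q / 2 ^ ((e.1 : ℕ) - (n - n)) ≤ Lp n e.1 := by rw [h5]; exact h3
    have h7 := hqC e.1 e.1.2 h6 (by omega)
    apply h7
    have h8 : arc n e.1 (q / 2 ^ ((e.1 : ℕ) - (n - n))) e.1.2 h6 = e := by
      show arc n e.1 (q / 2 ^ ((e.1 : ℕ) - (n - n))) e.1.2 h6 = arc n e.1 e.2 e.1.2 h3
      congr 1
    rw [h8]
    exact he
  have horb : ∀ m : ℕ, ((tail n ((τ ^ (m + 1)) ε) : V n) : ℕ) ≤ q := by
    intro m
    induction m with
    | zero =>
      have h1 : (τ ^ (0 + 1)) ε = τ ε := by simp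
      rw [h1, hτ, hε, arc_head, he3]
      exact Nat.zero_le _
    | succ m ih =>
      have h1 : (τ ^ (m + 1 + 1)) ε = τ ((τ ^ (m + 1)) ε) := by
        rw [pow_succ']; rfl
      rw [h1, hτ]
      apply hqC' _ _ ih
      exact ⟨((m + 1 : ℕ) : ℤ), by rw [zpow_natCast]⟩
  have hord : 0 < orderOf τ := orderOf_pos τ
  have h1 := horb (orderOf τ - 1)
  have h2 : orderOf τ - 1 + 1 = orderOf τ := by omega
  rw [h2, pow_orderOf_eq_one] at h1
  have h3 : ((tail n ((1 : Equiv.Perm (E n)) ε) : V n) : ℕ) = 2 ^ n := by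
    rw [Equiv.Perm.one_apply, hε, arc_tail, he2]
  rw [h3] at h1
  omega

end Pool.Agent.Helper39CD
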